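import Pool.Agent.Helper86.QA.St3

/-!
Project QD part A (MP_d112a4_gt), module FLC: Cauchy-Schwarz for the total variation.
-/

set_option autoImplicit false

open MeasureTheory Matrix Set Topology
open scoped ENNReal ComplexConjugate

namespace Pool.Agent.Helper24.QA

open Pool.Agent.Helper86.QA

/-- Cauchy-Schwarz. -/
private theorem flc_cs {α : Type} [MeasurableSpace α] (μ : Measure α) (f g : α → ℝ≥0∞)
    (hf : AEMeasurable f μ) (hg : AEMeasurable g μ) :
    (∫⁻ a, f a * g a ∂μ) ^ 2 ≤ (∫⁻ a, f a ^ 2 ∂μ) * ∫⁻ a, g a ^ 2 ∂μ := by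
  have h := ENNReal.lintegral_mul_le_Lp_mul_Lq μ Real.HolderConjugate.two_two hf hg
  have h2 : ∀ x : ℝ≥0∞, (x ^ (1 / (2 : ℝ))) ^ 2 = x := by
    intro x
    rw [← ENNReal.rpow_natCast, ← ENNReal.rpow_mul]
    norm_num
  calc (∫⁻ a, f a * g a ∂μ) ^ 2
      ≤ ((∫⁻ a, f a ^ (2 : ℝ) ∂μ) ^ (1 / (2 : ℝ)) * (∫⁻ a, g a ^ (2 : ℝ) ∂μ) ^ (1 / (2 : ℝ))) ^ 2 :=
        pow_le_pow_left₀ zero_le h 2
    _ = _ := by
        rw [mul_pow, h2, h2]
        simp only [ENNReal.rpow_two]

/-- The weight. -/
private noncomputable def mm (s : ℝ) : ℝ := max (s * (1 - s) - 1 / 8) 0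

private theorem mm_cont : Continuous mm := by
  unfold mm
  fun_prop

private theorem mm_nonneg (s : ℝ) : 0 ≤ mm s := le_max_right _ _

private theorem mm_integrable : Integrable mm := by
  apply mm_cont.integrable_of_hasCompactSupport
  refine HasCompactSupport.intro (isCompact_Icc (a := (0 : ℝ)) (b := 1)) ?_
  intro s hs
  unfold mm
  rw [max_eq_right]
  rw [mem_Icc, not_and_or, not_le, not_le] at hs
  rcases hs with h | h
  · nlinarith
  · nlinarith

private theorem Th_cont : Continuous Th := by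
  have h : Th = fun u => ∫ s in (0 : ℝ)..u, mm s := rfl
  rw [h]
  exact intervalIntegral.continuous_primitive (fun a b => mm_cont.intervalIntegrable a b) 0

private theorem Th_bdd (u : ℝ) : |Th u| ≤ ∫ s, mm s := by
  have h : Th u = ∫ s in (0 : ℝ)..u, mm s := rfl
  rw [h, ← Real.norm_eq_abs]
  refine (intervalIntegral.norm_integral_le_integral_norm_uIoc).trans ?_
  have h2 : ∀ s, ‖mm s‖ = mm s := fun s => by
    rw [Real.norm_eq_abs, abs_of_nonneg (mm_nonneg s)]
  simp only [h2]
  exact setIntegral_le_integral mm_integrable (Filter.Eventually.of_forall mm_nonneg)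

private theorem Th_sub (a b C : ℝ) (h : ∀ s, min a b ≤ s → s ≤ max a b → mm s ≤ C) :
    |Th b - Th a| ≤ C * |b - a| := by
  have h1 : Th b - Th a = ∫ s in a..b, mm s := by
    have e1 : Th b = ∫ s in (0 : ℝ)..b, mm s := rfl
    have e2 : Th a = ∫ s in (0 : ℝ)..a, mm s := rfl
    rw [e1, e2]
    exact intervalIntegral.integral_interval_sub_left (mm_cont.intervalIntegrable _ _)
      (mm_cont.intervalIntegrable _ _)
  rw [h1, ← Real.norm_eq_abs]
  refine intervalIntegral.norm_integral_le_of_norm_le_const ?_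
  intro s hs
  rw [Real.norm_eq_abs, abs_of_nonneg (mm_nonneg s)]
  have hs' : min a b < s ∧ s ≤ max a b := hs
  exact h s hs'.1.le hs'.2

private theorem ll_ge : 1 ≤ ll := by
  unfold ll
  have : 0 ≤ Real.sqrt 3 := Real.sqrt_nonneg _
  linarith

/-- The pointwise estimate. -/
private theorem mm_le {a b s : ℝ} (ha0 : 0 ≤ a) (ha1 : a ≤ 1) (hb0 : 0 ≤ b) (hb1 : b ≤ 1)
    (h1 : b ≤ ll ^ 2 * a) (h2 : 1 - b ≤ ll ^ 2 * (1 - a)) (hs1 : min a b ≤ s)
    (hs2 : s ≤ max a b) :
    mm s ≤ ll ^ 4 * max (a * (1 - a) - 1 / (8 * ll ^ 4)) 0 := by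
  have hl : 1 ≤ ll := ll_ge
  have hl2 : 1 ≤ ll ^ 2 := one_le_pow₀ hl
  have hl4 : 0 < ll ^ 4 := by positivity
  have s0 : 0 ≤ s := (le_min ha0 hb0).trans hs1
  have s1 : s ≤ 1 := hs2.trans (max_le ha1 hb1)
  have g1 : s ≤ ll ^ 2 * a := hs2.trans (max_le (le_mul_of_one_le_left ha0 hl2) h1)
  have g2 : 1 - s ≤ ll ^ 2 * (1 - a) := by
    have : 1 - min a b ≤ ll ^ 2 * (1 - a) := by
      rcases min_choice a b with h | h
      · rw [h]
        exact le_mul_of_one_le_left (by linarith) hl2
      · rw [h]; exact h2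
    linarith
  have g3 : s * (1 - s) ≤ (ll ^ 2 * a) * (ll ^ 2 * (1 - a)) :=
    mul_le_mul g1 g2 (by linarith) (by positivity)
  unfold mm
  refine max_le ?_ (mul_nonneg hl4.le (le_max_right _ _))
  have g4 : ll ^ 4 * (a * (1 - a) - 1 / (8 * ll ^ 4))
      ≤ ll ^ 4 * max (a * (1 - a) - 1 / (8 * ll ^ 4)) 0 :=
    mul_le_mul_of_nonneg_left (le_max_left _ _) hl4.le
  refine le_trans ?_ g4
  have g5 : ll ^ 4 * (a * (1 - a) - 1 / (8 * ll ^ 4)) = (ll ^ 2 * a) * (ll ^ 2 * (1 - a)) - 1 / 8 := by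
    field_simp
  rw [g5]
  linarith

private theorem kk_cases (x y : Pt) : kk x y = 0 ∨ (kk x y = 1 ∧ ch x y ≤ 2) := by
  unfold kk
  split_ifs with h
  · exact Or.inr ⟨rfl, h⟩
  · exact Or.inl rfl

/-- FLC (Cauchy-Schwarz). -/
theorem hFLC (hCHI : StCHI) (hKRN : StKRN) (hHME : StHME) (_hACU : StACU) (hFVS : StFVS) :
    StFLC := by
  intro Γ _ ρ A B hK D hD
  obtain ⟨-, -, -, -, -, hkm⟩ := hCHI
  obtain ⟨hV0, hV1, -⟩ := hKRN
  obtain ⟨H1, H2, H3, H4, -, -, -, -⟩ := hHME
  have mA : MeasurableSet A := hK.opA.measurableSet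
  have mB : MeasurableSet B := hK.opB.measurableSet
  have hl : 1 ≤ ll := ll_ge
  have hl4 : 0 < ll ^ 4 := by positivity
  have hw : ∀ x ∈ up, 0 ≤ hv A x ∧ hv A x ≤ 1 := fun x hx => (H1 A x mA hx).2
  have hwm : Measurable (hv A) := (H3 A mA).1
  have hf : Measurable (fun x => Th (hv A x)) := Th_cont.measurable.comp hwm
  set φ : Pt → ℝ := fun x => max (hv A x * (1 - hv A x) - 1 / (8 * ll ^ 4)) 0 with hφ
  have hφ0 : ∀ x, 0 ≤ φ x := fun x => le_max_right _ _
  have hφm : Measurable φ :=
    ((hwm.mul (measurable_const.sub hwm)).sub measurable_const).max measurable_const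
  have hkx : ∀ x, Measurable (fun y => kk x y) := by
    intro x
    have h : Measurable ((fun p : Pt × Pt => kk p.1 p.2) ∘ (fun y : Pt => (x, y))) :=
      hkm.comp measurable_prodMk_left
    simpa only [Function.comp_def] using h
  set G : Pt → ℝ≥0∞ := fun x => ∫⁻ y, ENNReal.ofReal (kk x y * |hv A x - hv A y|) ∂vol with hG
  have hGm : Measurable G := by
    have h1 : Measurable (fun p : Pt × Pt =>
        ENNReal.ofReal (kk p.1 p.2 * |hv A p.1 - hv A p.2|)) := by
      apply Measurable.ennreal_ofReal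
      apply hkm.mul
      have : Measurable (fun p : Pt × Pt => hv A p.1 - hv A p.2) :=
        (hwm.comp measurable_fst).sub (hwm.comp measurable_snd)
      exact this.abs
    exact h1.lintegral_prod_right'
  -- pointwise estimate
  have hpt : ∀ x ∈ up, ∀ y ∈ up, kk x y * |Th (hv A x) - Th (hv A y)|
      ≤ (ll ^ 4 * φ x) * (kk x y * |hv A x - hv A y|) := by
    intro x hx y hy
    rcases kk_cases x y with h | ⟨h, hc⟩
    · rw [h]; simp
    · rw [h, one_mul, one_mul]
      obtain ⟨a0, a1⟩ := hw x hx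
      obtain ⟨b0, b1⟩ := hw y hy
      have h1 := H4 A mA x hx y hy hc
      have h2 := H4 B mB x hx y hy hc
      have e1 := H2 A B x mA mB hK.dis hK.nul hx
      have e2 := H2 A B y mA mB hK.dis hK.nul hy
      have h3 : 1 - hv A y ≤ ll ^ 2 * (1 - hv A x) := by
        have e3 : hv B x = 1 - hv A x := by linarith
        have e4 : hv B y = 1 - hv A y := by linarith
        rw [e3, e4] at h2
        exact h2
      have := Th_sub (hv A y) (hv A x) (ll ^ 4 * φ x) (by
        intro s hs1 hs2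
        rw [min_comm] at hs1
        rw [max_comm] at hs2
        exact mm_le a0 a1 b0 b1 h1 h3 hs1 hs2)
      exact this
  have hTV : TV D (fun x => Th (hv A x)) ≤ ∫⁻ x in D, ENNReal.ofReal (ll ^ 4 * φ x) * G x ∂vol := by
    unfold TV
    refine setLIntegral_mono' hD.mD ?_
    intro x hx
    have hx' : x ∈ up := hD.sub hx
    rw [hG, ← lintegral_const_mul' _ _ ENNReal.ofReal_ne_top]
    refine lintegral_mono_ae ?_
    filter_upwards [ae_up] with y hy
    rw [← ENNReal.ofReal_mul (by have := hφ0 x; positivity)]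
    exact ENNReal.ofReal_le_ofReal (hpt x hx' y hy)
  -- inner Cauchy-Schwarz
  have hGe : ∀ x ∈ up, G x ^ 2 ≤ ENNReal.ofReal VV * en A x := by
    intro x hx
    have m2 : Measurable (fun y => ENNReal.ofReal (kk x y * |hv A x - hv A y|)) := by
      apply Measurable.ennreal_ofReal
      apply (hkx x).mul
      exact (measurable_const.sub hwm).abs
    have h1 := flc_cs vol (fun y => ENNReal.ofReal (kk x y))
      (fun y => ENNReal.ofReal (kk x y * |hv A x - hv A y|))
      (hkx x).ennreal_ofReal.aemeasurable m2.aemeasurable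
    have h2 : G x = ∫⁻ y, ENNReal.ofReal (kk x y) *
        ENNReal.ofReal (kk x y * |hv A x - hv A y|) ∂vol := by
      rw [hG]
      refine lintegral_congr fun y => ?_
      rcases kk_cases x y with h | ⟨h, -⟩
      · rw [h]; simp
      · rw [h]; simp
    have h3 : ∫⁻ y, ENNReal.ofReal (kk x y) ^ 2 ∂vol = ENNReal.ofReal VV := by
      rw [← hV1 x hx]
      refine lintegral_congr fun y => ?_
      rcases kk_cases x y with h | ⟨h, -⟩
      · rw [h]; simp
      · rw [h]; simp
    have h4 : ∫⁻ y, ENNReal.ofReal (kk x y * |hv A x - hv A y|) ^ 2 ∂vol = en A x := by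
      unfold en
      refine lintegral_congr fun y => ?_
      rcases kk_cases x y with h | ⟨h, -⟩
      · rw [h]; simp
      · rw [h, one_mul, one_mul, ← ENNReal.ofReal_pow (abs_nonneg _), sq_abs]
    rw [h2]
    refine h1.trans ?_
    rw [h3, h4]
  refine ⟨hf, ⟨_, fun x => Th_bdd _⟩, ?_, ?_⟩
  · -- finiteness
    set ε : ℝ := 1 / (8 * ll ^ 4) with hε
    have hε0 : 0 < ε := by positivity
    have hS := hFVS Γ ρ A B hK D hD ε hε0
    set S : Set Pt := {x | ε ≤ hv A x ∧ hv A x ≤ 1 - ε} with hSd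
    have hSm : MeasurableSet S :=
      (measurableSet_le measurable_const hwm).inter (measurableSet_le hwm measurable_const)
    have hGV : ∀ x ∈ up, G x ≤ ENNReal.ofReal VV := by
      intro x hx
      rw [← hV1 x hx, hG]
      refine lintegral_mono_ae ?_
      filter_upwards [ae_up] with y hy
      apply ENNReal.ofReal_le_ofReal
      obtain ⟨a0, a1⟩ := hw x hx
      obtain ⟨b0, b1⟩ := hw y hy
      have h1 : |hv A x - hv A y| ≤ 1 := by
        rw [abs_le]; constructor <;> linarith
      have h2 : 0 ≤ kk x y := by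
        rcases kk_cases x y with h | ⟨h, -⟩ <;> rw [h]
        exact zero_le_one
      exact mul_le_of_le_one_right h2 h1
    have hle : ∫⁻ x in D, ENNReal.ofReal (ll ^ 4 * φ x) * G x ∂vol
        ≤ ∫⁻ x in D, S.indicator (fun _ => ENNReal.ofReal (ll ^ 4) * ENNReal.ofReal VV) x ∂vol := by
      refine setLIntegral_mono' hD.mD ?_
      intro x hx
      have hx' : x ∈ up := hD.sub hx
      obtain ⟨a0, a1⟩ := hw x hx'
      by_cases hxS : x ∈ S
      · rw [indicator_of_mem hxS]
        refine mul_le_mul' (ENNReal.ofReal_le_ofReal ?_) (hGV x hx')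
        have h1 : φ x ≤ 1 := by
          rw [hφ]
          refine max_le ?_ zero_le_one
          nlinarith
        exact mul_le_of_le_one_right hl4.le h1
      · rw [indicator_of_notMem hxS]
        have h1 : φ x = 0 := by
          simp only [hφ]
          refine max_eq_right ?_
          by_contra hcon
          push Not at hcon
          apply hxS
          rw [hSd, mem_setOf_eq]
          constructor
          · nlinarith
          · nlinarith
        rw [h1]
        simp
    have hfin : ∫⁻ x in D, S.indicator (fun _ => ENNReal.ofReal (ll ^ 4) * ENNReal.ofReal VV) x ∂vol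
        < ∞ := by
      rw [lintegral_indicator_const hSm, Measure.restrict_apply hSm, inter_comm]
      exact ENNReal.mul_lt_top (ENNReal.mul_lt_top ENNReal.ofReal_lt_top ENNReal.ofReal_lt_top) hS
    exact ((hTV.trans hle).trans_lt hfin).ne
  · -- the estimate
    have h1 := flc_cs (vol.restrict D) (fun x => ENNReal.ofReal (ll ^ 4 * φ x)) G
      (measurable_const.mul hφm).ennreal_ofReal.aemeasurable hGm.aemeasurable
    have h2 : ∫⁻ x in D, ENNReal.ofReal (ll ^ 4 * φ x) ^ 2 ∂vol
        = ENNReal.ofReal (ll ^ 8) * ∫⁻ x in D, ENNReal.ofReal (φ x ^ 2) ∂vol := by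
      rw [← lintegral_const_mul' _ _ ENNReal.ofReal_ne_top]
      refine lintegral_congr fun x => ?_
      have := hφ0 x
      rw [← ENNReal.ofReal_pow (by positivity), ← ENNReal.ofReal_mul (by positivity)]
      congr 1
      ring
    have h3 : ∫⁻ x in D, G x ^ 2 ∂vol ≤ ENNReal.ofReal VV * ∫⁻ x in D, en A x ∂vol := by
      rw [← lintegral_const_mul' _ _ ENNReal.ofReal_ne_top]
      exact setLIntegral_mono' hD.mD (fun x hx => hGe x (hD.sub hx))
    calc TV D (fun x => Th (hv A x)) ^ 2
        ≤ (∫⁻ x in D, ENNReal.ofReal (ll ^ 4 * φ x) * G x ∂vol) ^ 2 :=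
          pow_le_pow_left₀ zero_le hTV 2
      _ ≤ (ENNReal.ofReal (ll ^ 8) * ∫⁻ x in D, ENNReal.ofReal (φ x ^ 2) ∂vol) *
          (ENNReal.ofReal VV * ∫⁻ x in D, en A x ∂vol) := by
          rw [← h2]
          exact h1.trans (mul_le_mul' le_rfl h3)
      _ = _ := by
          rw [ENNReal.ofReal_mul (by positivity)]
          ring

end Pool.Agent.Helper24.QA
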